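import Mathlib
import Pool.Agent.ExtremalSim

set_option autoImplicit false

namespace Pool.Agent.Results.MP_393faa_an.NotExtremal

open Filter Topology

variable {H : Type} [NormedAddCommGroup H] [InnerProductSpace ℂ H]

/-- Condition (1) holds for some isometry `S`: `T = L⁻¹ S L`. -/
def SimilarVia (T : H →L[ℂ] H) (L : H ≃L[ℂ] H) : Prop :=
  ∃ S : H →L[ℂ] H, (∀ x, ‖S x‖ = ‖x‖) ∧ ∀ x, T x = L.symm (S (L x))

/-- The number `‖L‖ ‖L⁻¹‖`. -/
noncomputable def cond (L : H ≃L[ℂ] H) : ℝ :=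
  ‖(L : H →L[ℂ] H)‖ * ‖(L.symm : H →L[ℂ] H)‖

/-- The number `d(T)`, the infimum of `‖L‖ ‖L⁻¹‖` over all `L` satisfying (1). -/
noncomputable def d (T : H →L[ℂ] H) : ℝ :=
  sInf {c : ℝ | ∃ L : H ≃L[ℂ] H, SimilarVia T L ∧ c = cond L}

/-- The limit condition in (4). -/
def LimitCondition (T : H →L[ℂ] H) (L : H ≃L[ℂ] H) : Prop :=
  ∀ x : H, Tendsto (fun n : ℕ => ‖(T ^ n) x‖) atTop (𝓝 ‖L x‖)

/-- There are a complex Hilbert space, an operator `T` on it and an invertible `L` satisfying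
(1) and (4) with `‖L‖ ‖L⁻¹‖ > d(T)`. -/
theorem result : ∃ (H : Type) (_ : NormedAddCommGroup H) (_ : InnerProductSpace ℂ H)
    (_ : CompleteSpace H) (T : H →L[ℂ] H) (L : H ≃L[ℂ] H),
    SimilarVia T L ∧ LimitCondition T L ∧ d T < cond L := by
  refine ⟨ExtremalSim.E, inferInstance, inferInstance, inferInstance, ExtremalSim.T,
    ExtremalSim.L, ⟨ExtremalSim.Sh, ExtremalSim.Sh_norm, fun _ => rfl⟩, ?_, ?_⟩
  · intro x
    rw [← tendsto_add_atTop_iff_nat 1]
    simp only [ExtremalSim.T_norm]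
    exact tendsto_const_nhds
  · have h1 : d ExtremalSim.T ≤ 2 * 1 := by
      have hmem : cond ExtremalSim.L' ∈ {c : ℝ | ∃ L : ExtremalSim.E ≃L[ℂ] ExtremalSim.E,
          SimilarVia ExtremalSim.T L ∧ c = cond L} :=
        ⟨ExtremalSim.L', ⟨ExtremalSim.Sh, ExtremalSim.Sh_norm, fun x => by
          rw [ExtremalSim.T_eq']; rfl⟩, rfl⟩
      refine (csInf_le ?_ hmem).trans ?_
      · refine ⟨0, ?_⟩
        rintro _ ⟨M, _, rfl⟩
        exact mul_nonneg (norm_nonneg _) (norm_nonneg _)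
      · exact mul_le_mul ExtremalSim.L'_le ExtremalSim.L'symm_le (norm_nonneg _) (by norm_num)
    have h6 : 2 * 2 ≤ cond ExtremalSim.L :=
      mul_le_mul ExtremalSim.L_ge ExtremalSim.Lsymm_ge (by norm_num)
        (le_trans (by norm_num) ExtremalSim.L_ge)
    linarith

end Pool.Agent.Results.MP_393faa_an.NotExtremal
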